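import Pool.Agent.H302FL.Main

/-!
# Infinitely many of the integers `⌊(7/5)^n⌋` are composite

The case `(a, b) = (7, 5)` of Q1, in the stronger form that for every real `ξ ≠ 0` infinitely many of
the integers `⌊ξ (7/5)^n⌋` are composite and divisible by one of `2`, `3`, `5`, `11`, `13`.

Proof.  Let `s n = ⌊ξ (7/5)^n⌋`, let `f n` be the fractional part and suppose that no `s n` with
`n ≥ N` is divisible by one of these primes.  Then `r n = 5 s (n+1) - 7 s n = 7 f n - 5 f (n+1)` is one
of `-4, -2, 2, 4, 6`.  The restrictions `0 ≤ f < 1` and `s ≢ 0` modulo `3`, `11` and `13` are followed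
by an automaton with 70 states, in which the only infinite paths are eventually periodic (every state
has a rank, and only one step from a state can preserve the rank).  Hence `r` is eventually periodic,
`e n = s (n+p) - s n` satisfies `5 e (n+1) = 7 e n` for large `n`, so `e n` is divisible by all powers
of `5`, that is `e n = 0`, which contradicts `|s n| → ∞`.
-/

set_option autoImplicit false

namespace Pool.Agent.Results.MP_597c7c_nt.SevenFifths

/-- The sequence of the problem, `s_n(a,b) = ⌊(a/b)^n⌋`. -/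
noncomputable def s (a b n : ℕ) : ℕ := ⌊((a : ℝ) / (b : ℝ)) ^ n⌋₊

/-- A composite number: greater than one and not prime. -/
def Composite (m : ℕ) : Prop := 1 < m ∧ ¬ m.Prime

/-- Infinitely many of the integers `⌊(7/5)^n⌋` are composite.  For every real `ξ ≠ 0` infinitely
many of the integers `⌊ξ (7/5)^n⌋` have a composite absolute value and are not coprime to
`4290 = 2 · 3 · 5 · 11 · 13`. -/
theorem result :
    {n : ℕ | Composite (s 7 5 n)}.Infinite ∧
      ∀ ξ : ℝ, ξ ≠ 0 → {n : ℕ | Composite ⌊ξ * (7 / 5 : ℝ) ^ n⌋.natAbs ∧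
        1 < Nat.gcd ⌊ξ * (7 / 5 : ℝ) ^ n⌋.natAbs 4290}.Infinite := by
  refine ⟨?_, fun ξ hξ => H302FL.infinite_composite ξ hξ⟩
  refine (H302FL.infinite_composite 1 one_ne_zero).mono fun n hn => ?_
  have e : s 7 5 n = ⌊(1 : ℝ) * (7 / 5 : ℝ) ^ n⌋.natAbs := by
    have h : ⌊(1 : ℝ) * (7 / 5 : ℝ) ^ n⌋ = ((⌊(7 / 5 : ℝ) ^ n⌋₊ : ℕ) : ℤ) := by
      rw [one_mul]
      exact (Int.natCast_floor_eq_floor (by positivity)).symm
    rw [h, Int.natAbs_natCast]
    simp only [s, Nat.cast_ofNat]
  show Composite (s 7 5 n)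
  rw [e]
  exact hn.1

end Pool.Agent.Results.MP_597c7c_nt.SevenFifths
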